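import Pool.Agent.Y166.DP.Stm

/-!
# F1: failure of the asymptotic formula
-/

set_option autoImplicit false

namespace Pool.Agent.Y441.DP

open Filter Topology ENNReal

theorem odd_prime_frequently : ∃ᶠ d : ℕ in atTop, (d + 1).Prime ∧ Odd (d + 1) := by
  rw [Filter.frequently_atTop]
  intro N
  obtain ⟨p, hp, hpp⟩ := Nat.exists_infinite_primes (N + 3)
  refine ⟨p - 1, by omega, ?_⟩
  have h1 : p - 1 + 1 = p := by omega
  rw [h1]
  exact ⟨hpp, hpp.odd_of_ne_two (by omega)⟩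

theorem rec_eq (A : ℕ → ℝ≥0∞) (q : ℝ≥0∞) (hq0 : q ≠ 0) (hqt : q ≠ ⊤) (d : ℕ) :
    (∑ i ∈ Finset.Icc 1 (d + 1), A i) / q ^ (d + 1) =
      (∑ i ∈ Finset.Icc 1 d, A i) / q ^ d / q + A (d + 1) / q ^ (d + 1) := by
  rw [Finset.sum_Icc_succ_top (by omega), ENNReal.add_div]
  congr 1
  rw [pow_succ, div_eq_mul_inv, div_eq_mul_inv, div_eq_mul_inv, ENNReal.mul_inv (Or.inr hqt) (Or.inr hq0), mul_assoc]

theorem stmAsym : Pool.Agent.Y166.DP.StmAsym := by
  intro ι dm hodd heven H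
  obtain ⟨C2, hC2, hT2⟩ := H 2 (by norm_num)
  set A : ℝ → ℕ → ℝ≥0∞ := fun q i => ∑' M : ι i, ENNReal.ofReal q ^ dm i M with hA
  -- eventually bounded
  have hlt : ENNReal.ofReal C2 < ENNReal.ofReal (C2 + 1) :=
    (ENNReal.ofReal_lt_ofReal_iff (by linarith)).2 (by linarith)
  have hev := hT2.eventually (Filter.Eventually.mono (eventually_lt_nhds hlt) fun _ h => le_of_lt h)
  have hev2 : ∀ᶠ d : ℕ in atTop, A 2 (d + 1) ≤ ENNReal.ofReal (C2 + 1) * ENNReal.ofReal 2 ^ (d + 1) := by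
    have hh := (tendsto_add_atTop_nat 1).eventually hev
    filter_upwards [hh] with d hd
    have h2 : (∑ i ∈ Finset.Icc 1 (d + 1), A 2 i) / ENNReal.ofReal 2 ^ (d + 1) ≤
        ENNReal.ofReal (C2 + 1) := hd
    have h3 : A 2 (d + 1) ≤ ∑ i ∈ Finset.Icc 1 (d + 1), A 2 i :=
      Finset.single_le_sum (f := fun i => A 2 i) (fun _ _ => zero_le)
        (Finset.mem_Icc.2 ⟨by omega, le_rfl⟩)
    have h4 := (ENNReal.div_le_iff_le_mul (Or.inl (by positivity))
      (Or.inl (ENNReal.pow_ne_top ENNReal.ofReal_ne_top))).1 h2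
    exact h3.trans h4
  set q : ℝ := C2 + 3 with hq
  have hq1 : 1 < q := by linarith
  obtain ⟨C, hC, hT⟩ := H q hq1
  set Q : ℝ≥0∞ := ENNReal.ofReal q with hQ
  have hQ0 : Q ≠ 0 := by
    rw [hQ]; exact (ENNReal.ofReal_pos.2 (by linarith)).ne'
  have hQt : Q ≠ ⊤ := ENNReal.ofReal_ne_top
  set T : ℕ → ℝ≥0∞ := fun d => (∑ i ∈ Finset.Icc 1 d, A q i) / Q ^ d with hTd
  have hT' : Tendsto T atTop (𝓝 (ENNReal.ofReal C)) := hT
  have hT1 : Tendsto (fun d => T (d + 1)) atTop (𝓝 (ENNReal.ofReal C)) :=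
    hT'.comp (tendsto_add_atTop_nat 1)
  have hTq : Tendsto (fun d => T d / Q) atTop (𝓝 (ENNReal.ofReal C / Q)) :=
    ENNReal.Tendsto.div_const hT' (Or.inr hQ0)
  have hrec : ∀ d, T (d + 1) = T d / Q + A q (d + 1) / Q ^ (d + 1) := fun d =>
    rec_eq (A q) Q hQ0 hQt d
  -- upper bound along odd primes
  have hup : ENNReal.ofReal C ≤ ENNReal.ofReal C / Q + ENNReal.ofReal (C2 + 1) := by
    refine le_of_tendsto_of_tendsto_of_frequently hT1 (hTq.add tendsto_const_nhds) ?_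
    refine (odd_prime_frequently.and_eventually hev2).mono ?_
    rintro d ⟨⟨hp, ho⟩, hb⟩
    rw [hrec]
    gcongr
    rw [ENNReal.div_le_iff_le_mul (Or.inl (pow_ne_zero _ hQ0)) (Or.inl (ENNReal.pow_ne_top hQt))]
    have hterm : A q (d + 1) ≤ ENNReal.ofReal (q / 2) ^ (d + 1) * A 2 (d + 1) := by
      rw [hA]
      simp only
      rw [← ENNReal.tsum_mul_left]
      refine ENNReal.tsum_le_tsum fun M => ?_
      have h1 : ENNReal.ofReal q = ENNReal.ofReal (q / 2) * ENNReal.ofReal 2 := by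
        rw [← ENNReal.ofReal_mul (by linarith)]; congr 1; ring
      rw [h1, mul_pow]
      gcongr
      · rw [← ENNReal.ofReal_one]
        exact ENNReal.ofReal_le_ofReal (by linarith)
      · exact hodd _ hp ho M
    calc A q (d + 1) ≤ ENNReal.ofReal (q / 2) ^ (d + 1) * A 2 (d + 1) := hterm
      _ ≤ ENNReal.ofReal (q / 2) ^ (d + 1) *
          (ENNReal.ofReal (C2 + 1) * ENNReal.ofReal 2 ^ (d + 1)) := by gcongr
      _ = ENNReal.ofReal (C2 + 1) * (ENNReal.ofReal (q / 2) * ENNReal.ofReal 2) ^ (d + 1) := by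
          rw [mul_pow]; ring
      _ = ENNReal.ofReal (C2 + 1) * Q ^ (d + 1) := by
          rw [← ENNReal.ofReal_mul (by linarith), hQ]
          congr 3
          ring
  -- lower bound along even numbers
  have hlo : ENNReal.ofReal C / Q + Q ≤ ENNReal.ofReal C := by
    refine le_of_tendsto_of_tendsto_of_frequently (hTq.add tendsto_const_nhds) hT1 ?_
    rw [Filter.frequently_atTop]
    intro N
    refine ⟨2 * (N + 2) - 1, by omega, ?_⟩
    have he : 2 * (N + 2) - 1 + 1 = 2 * (N + 2) := by omega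
    rw [hrec]
    gcongr
    rw [ENNReal.le_div_iff_mul_le (Or.inl (pow_ne_zero _ hQ0)) (Or.inl (ENNReal.pow_ne_top hQt)), he]
    obtain ⟨M, hM⟩ := heven (N + 2) (by omega)
    calc Q * Q ^ (2 * (N + 2)) = Q ^ (2 * (N + 2) + 1) := by rw [pow_succ]; ring
      _ ≤ Q ^ dm (2 * (N + 2)) M := by
          gcongr
          rw [hQ, ← ENNReal.ofReal_one]
          exact ENNReal.ofReal_le_ofReal (by linarith)
      _ ≤ A q (2 * (N + 2)) := ENNReal.le_tsum (f := fun M => ENNReal.ofReal q ^ dm (2 * (N + 2)) M) M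
  -- contradiction
  have h1 : ENNReal.ofReal C / Q = ENNReal.ofReal (C / q) := by
    rw [hQ, ENNReal.ofReal_div_of_pos (by linarith)]
  have h2 : ENNReal.ofReal (C / q) + Q = ENNReal.ofReal (C / q + q) := by
    rw [hQ, ← ENNReal.ofReal_add (by positivity) (by linarith)]
  have h3 : ENNReal.ofReal (C / q) + ENNReal.ofReal (C2 + 1) = ENNReal.ofReal (C / q + (C2 + 1)) := by
    rw [← ENNReal.ofReal_add (by positivity) (by linarith)]
  rw [h1, h3, ENNReal.ofReal_le_ofReal_iff (by positivity)] at hup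
  rw [h1, h2, ENNReal.ofReal_le_ofReal_iff hC.le] at hlo
  linarith

end Pool.Agent.Y441.DP
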